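import Mathlib
import Pool.Agent.Run7.h166.TS.ConsF

/-!
# Any set of times in three sequences, for the orbits of all affine maps

Let `S x = a x + b` with integers `a ≥ 2` and `b` prime to `a`; `S ^ j x` is the `j`-th iterate. For `a = 2`, `b = 1`
and `b = -1` the runs of primes in the orbits are the Cunningham chains of the first and second kind, and the
question is whether for every `k` the times `0, 1, …, k - 1` are times of primes of one orbit.

(1) A number `d` is an `R`-isolated gap if for many primes `p` (at least `N ^ (1 - η)` of the primes `p ≤ N`, for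
every `η > 0` and arbitrarily large `N`) the number `S ^ d p` is prime, `S p, …, S ^ (d - 1) p` are not prime, the
next `R` numbers after `S ^ d p` are not prime, and `p` is none of the first `R` iterates of a prime. There is an
absolute constant `C` such that for all `a`, `b`, `R` and EVERY finite set `V` of times, any two of which differ
by more than `R`, which for `p = 2, 3`, if `p` divides `a - 1` and not `b`, misses a class modulo `p` (for
`a = 2` there is no condition), all elements of `V` with at most `C` exceptions can be arranged in THREE lists such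
that the differences of neighbours of a list are `R`-isolated gaps. An infinite set of times of this kind is, up
to finitely many elements, the range of three sequences all of whose successive differences are such gaps.

(2) For EVERY infinite set `V` of times (for `a = 2` without any condition; in general, for windows of length
`k`, finitely many members of `V` are in some class modulo `p`, for each prime `p ≤ B k` which divides `a - 1` and
not `b`) all but finitely many elements of `V` can be arranged in THREE sequences such that for every `k` any `k`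
successive members of a sequence, from some point on, are, between the first and the last of them, the exact times
of primes in the orbits of many primes.

Part (1) for `a = 2`, `b = 1` is my result on MP_77cbc6_nt and part (2) for `a = 2`, `b = -1` is my result on
MP_39b545_nt (without the statement on hubs); here all affine maps are treated, with the same constant.

Proof. Coloured Maynard-Tao theorem with a constant above one quarter and exact patterns (starting files,
`Pool.Agent.TH899.UG.Uni.exactU`) for the forms `a ^ t n + b (a ^ t - 1) / (a - 1)`, which have local obstructions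
only at the primes dividing `a - 1` and not `b`; path covers of graphs without four-partite holes; nonprincipal
ultrafilters.
-/

set_option autoImplicit false

namespace Pool.Agent.Results.MP_c183ae_nt.AffineOrbitsThreeSequences

open Filter Finset

/-- the `j`-th iterate of `x ↦ a x + b` -/
def S (a b : ℤ) (j : ℕ) (x : ℤ) : ℤ := (fun y : ℤ => a * y + b)^[j] x

open Classical in
/-- the primes `p ≤ N` such that the first prime iterate of `p` is the `d`-th one, the `R` iterates after it are
not prime and `p` is none of the first `R` iterates of a prime -/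
noncomputable def starts (a b : ℤ) (R d N : ℕ) : Finset ℕ := (Icc 1 N).filter (fun p => p.Prime ∧
  (S a b d p).toNat.Prime ∧ (∀ j, 0 < j → j < d → ¬ (S a b j p).toNat.Prime) ∧
  (∀ j, d < j → j ≤ d + R → ¬ (S a b j p).toNat.Prime) ∧
  ∀ q j : ℕ, q.Prime → 0 < j → j ≤ R → S a b j q ≠ p)

/-- `d` is an `R`-isolated gap many times -/
def IsolatedGap (a b : ℤ) (R d : ℕ) : Prop :=
  ∀ η : ℝ, 0 < η → ∃ᶠ N : ℕ in atTop, (N : ℝ) ^ (1 - η) ≤ ((starts a b R d N).card : ℝ)

open Classical in
/-- the positive integers `p ≤ N` such that, if `s` is the least element of `F`, for all `y ≤ max F - s` the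
`y`-th iterate of `p` is prime if and only if `s + y ∈ F` (for `y = 0`: `p` is prime) -/
noncomputable def exact (a b : ℤ) (F : Finset ℕ) (N : ℕ) : Finset ℕ := (Icc 1 N).filter (fun p =>
  ∀ s ∈ F, (∀ x ∈ F, s ≤ x) → ∀ y : ℕ, (∃ z ∈ F, s + y ≤ z) → ((S a b y p).toNat.Prime ↔ s + y ∈ F))

/-- `F` is an exact pattern many times -/
def ExactPattern (a b : ℤ) (F : Finset ℕ) : Prop :=
  ∀ η : ℝ, 0 < η → ∃ᶠ N : ℕ in atTop, (N : ℝ) ^ (1 - η) ≤ ((exact a b F N).card : ℝ)

theorem It_eq (a b : ℤ) (j : ℕ) (x : ℤ) : Run7.h166.TS.It a b j x = S a b j x := by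
  induction j with
  | zero => exact Run7.h166.TS.It_zero a b x
  | succ j ih =>
    rw [Run7.h166.TS.It_succ, ih]
    unfold S
    rw [Function.iterate_succ_apply']

theorem gap_of {a b : ℤ} {R d : ℕ} (h : Run7.h166.TS.OGap a b R d) : IsolatedGap a b R d := by
  classical
  intro η hη
  refine (h η hη).mono fun N hN => hN.trans ?_
  rw [Nat.cast_le]
  refine card_le_card ?_
  intro p hp
  obtain ⟨h1, h2, h3, h4, h5, h6⟩ := mem_filter.1 hp
  simp only [It_eq] at h3 h4 h5 h6
  exact mem_filter.2 ⟨h1, h2, h3, h4, h5, h6⟩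

theorem pattern_of {a b : ℤ} (ha : 2 ≤ a) {F : Finset ℕ}
    (h : Run7.h166.TS.CPF (Run7.h166.TS.Fo a b) F) : ExactPattern a b F := by
  classical
  intro η hη
  refine (Run7.h166.TS.ex_of ha h η hη).mono fun N hN => hN.trans ?_
  rw [Nat.cast_le]
  refine card_le_card ?_
  intro p hp
  obtain ⟨h1, h2⟩ := mem_filter.1 hp
  simp only [It_eq] at h2
  exact mem_filter.2 ⟨h1, h2⟩

/-- **Times of primes in the orbits of affine maps.** -/
theorem result :
    (∃ C : ℕ, ∀ a b : ℤ, 2 ≤ a → IsCoprime a b → ∀ R : ℕ, ∀ V : Finset ℕ,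
      (∀ s ∈ V, ∀ t ∈ V, s < t → R < t - s) →
      (∀ p : ℕ, p = 2 ∨ p = 3 → (p : ℤ) ∣ a - 1 → ¬ (p : ℤ) ∣ b → ∃ c : ℕ, ∀ v ∈ V, ¬ v ≡ c [MOD p]) →
      ∃ e : Fin 3 → List ℕ, (∀ i, (e i).Nodup) ∧ (∀ i j, i ≠ j → List.Disjoint (e i) (e j)) ∧
        (∀ i, ∀ x ∈ e i, x ∈ V) ∧ (V.filter (fun x => ∀ i, x ∉ e i)).card ≤ C ∧
        ∀ i, (e i).IsChain (fun s t => IsolatedGap a b R (max s t - min s t))) ∧
    (∀ a b : ℤ, 2 ≤ a → IsCoprime a b → ∀ R : ℕ, ∀ V : Set ℕ, V.Infinite →
      (∀ s ∈ V, ∀ t ∈ V, s < t → R < t - s) →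
      (∀ p : ℕ, p = 2 ∨ p = 3 → (p : ℤ) ∣ a - 1 → ¬ (p : ℤ) ∣ b → ∃ c : ℕ, {v ∈ V | v ≡ c [MOD p]}.Finite) →
      ∃ e : Fin 3 → ℕ → ℕ, (∀ i n, e i n ∈ V) ∧ Function.Injective (fun p : Fin 3 × ℕ => e p.1 p.2) ∧
        (V \ Set.range (fun p : Fin 3 × ℕ => e p.1 p.2)).Finite ∧
        ∀ i n, IsolatedGap a b R (max (e i n) (e i (n + 1)) - min (e i n) (e i (n + 1)))) ∧
    ∃ B : ℕ → ℕ, ∀ a b : ℤ, 2 ≤ a → IsCoprime a b → ∀ V : Set ℕ, V.Infinite → ∀ k₀, 1 ≤ k₀ →
      (∀ p : ℕ, p.Prime → p ≤ B k₀ → (p : ℤ) ∣ a - 1 → ¬ (p : ℤ) ∣ b →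
        ∃ c : ℕ, {v ∈ V | v ≡ c [MOD p]}.Finite) →
      ∃ e : Fin 3 → ℕ → ℕ, (∀ i n, e i n ∈ V) ∧ Function.Injective (fun p : Fin 3 × ℕ => e p.1 p.2) ∧
        (V \ Set.range (fun p : Fin 3 × ℕ => e p.1 p.2)).Finite ∧
        ∀ k : ℕ, (∀ p : ℕ, p.Prime → p ≤ B k → (p : ℤ) ∣ a - 1 → ¬ (p : ℤ) ∣ b →
          ∃ c : ℕ, {v ∈ V | v ≡ c [MOD p]}.Finite) →
          ∀ᶠ t in atTop, ∀ i, ExactPattern a b ((range k).image (fun j => e i (t + j))) := by
  have key : ∀ p : ℕ, p.Prime → p ≤ 4 → p = 2 ∨ p = 3 := by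
    intro p hp hp4
    have h5 := hp.two_le
    interval_cases p
    · exact Or.inl rfl
    · exact Or.inr rfl
    · exact absurd hp (by norm_num)
  refine ⟨?_, ?_, ?_⟩
  · obtain ⟨C, hC⟩ := Run7.h166.TS.aff_lists
    refine ⟨C, fun a b ha hab R V hV hloc => ?_⟩
    obtain ⟨e, h1, h2, h3, h4, h5⟩ := hC a b ha hab R V hV (fun p hp hp4 => hloc p (key p hp hp4))
    exact ⟨e, h1, h2, h3, le_trans (le_of_eq (by congr 1)) h4, fun i => (h5 i).imp fun _ _ h => gap_of h⟩
  · intro a b ha hab R V hV hsep hloc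
    obtain ⟨e, h1, h2, h3, h4⟩ := Run7.h166.TS.aff_rays a b ha hab R V hV hsep
      (fun p hp hp4 => hloc p (key p hp hp4))
    exact ⟨e, h1, h2, h3, fun i n => gap_of (h4 i n)⟩
  · obtain ⟨B, hB⟩ := Run7.h166.TS.consec_F
    refine ⟨B, fun a b ha hab V hV k₀ hk₀ hloc => ?_⟩
    obtain ⟨-, e, h5, h6, h7, h8⟩ := hB (Run7.h166.TS.Fo a b) (Run7.h166.TS.Fo_inj ha _)
      (Run7.h166.TS.Fo_ok ha hab) V hV k₀ hk₀ (Run7.h166.TS.admF_aff hab V _ hloc)
    refine ⟨e, h5, h6, h7, fun k hk => ?_⟩
    exact (h8 k (Run7.h166.TS.admF_aff hab V _ hk)).mono fun t ht i => pattern_of ha (ht i)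

end Pool.Agent.Results.MP_c183ae_nt.AffineOrbitsThreeSequences
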