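import Mathlib
import Pool.Agent.Run7.h756.CC.AllPat
import Pool.Agent.W25.IT.Basic

/-!
# Circles of times: primes in Cunningham chains of both kinds, and of several affine maps, at the times which are
neighbours on circles containing all but a bounded number of the members of any set

Let `S_i(x) = a_i + d_i x`, `i ≤ R`, be affine maps with `a_i ≠ 0`, `d_i ≥ 1`, `(a_i, d_i) = 1` and `a_i d_i` even.
For every `R` and `k` there are `C` and `B` such that for EVERY finite set `V` of times which misses a class modulo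
each prime `3 ≤ p ≤ B` which divides some `d_i - 1` but not `a_i` all members of `V` with at most `C` exceptions
can be arranged in `m R` disjoint circles (`m 1 = 3`, `m 2 = 10`) such that at any `k` successive times of a
circle all patterns of primes occur in the orbits of each of the maps `S_i`, along narrow progressions. For the
maps `2 x + 1` and `2 x - 1` (Cunningham chains of the first and of the second kind) there is no condition on `V`.
-/

set_option autoImplicit false

namespace Pool.Agent.Results.MP_c183ae_nt.CirclesOfTimes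

open Filter Finset
open Pool.Agent.Run7.h756.CC
open Pool.Agent.W25.IT (itc itc_succ itc_zero itc_coprime itc_inj iter_admissible iter_miss)

/-- the `t`-th iterate of `x ↦ a + d x` maps `n` to a prime -/
def PrimeAt (a d : ℤ) (t : ℕ) (n : ℕ) : Prop := (((fun x : ℤ => a + d * x)^[t]) (n : ℤ)).toNat.Prime

open Classical in
/-- the number of the `1 ≤ n ≤ N` such that for each of the `l` numbers `n' = n, n + D, …, n + (l - 1) D` its
orbit is prime at the times in `A` and not prime at the times in `B` -/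
noncomputable def progressions (a d : ℤ) (A B : Finset ℕ) (l D N : ℕ) : ℕ :=
  ((Icc 1 N).filter (fun n : ℕ => ∀ j < l, (∀ t ∈ A, PrimeAt a d t (n + j * D)) ∧
    ∀ t ∈ B, ¬ PrimeAt a d t (n + j * D))).card

/-- All patterns at the times in `F`, along narrow progressions: there is a subset `T` of `V` with at most `J`
members which contains `F` such that for every finite set `U` of times disjoint from `T` and every length `l` there
is `C` such that for arbitrarily large `N` and EVERY subset `A` of `F` there is a difference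
`1 ≤ D ≤ (log N) ^ C` for which at least `N / (log N) ^ C` progressions of length `l` consist of numbers whose
orbits are prime at the times in `A` and not prime at the times in `F \ A` and in `U`. -/
def AllPatterns (a d : ℤ) (J : ℕ) (V F : Finset ℕ) : Prop := ∃ T ⊆ V, F ⊆ T ∧ T.card ≤ J ∧
  ∀ U : Finset ℕ, Disjoint U T → ∀ l : ℕ, ∃ C : ℕ, ∃ᶠ N : ℕ in atTop,
    ∀ A ⊆ F, ∃ D : ℕ, 1 ≤ D ∧ (D : ℝ) ≤ Real.log N ^ C ∧
      (N : ℝ) / Real.log N ^ C ≤ (progressions a d A ((F \ A) ∪ U) l D N : ℝ)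

/-- `m 0 = 1` and `m (R + 1) = ⌊18 * m R / 5⌋`: the numbers `1, 3, 10, 36, 129, ...` -/
def m : ℕ → ℕ
  | 0 => 1
  | R + 1 => 18 * m R / 5

theorem m_eq (R : ℕ) : m R = Pool.Agent.R493.SI.mR R := by
  induction R with
  | zero => rfl
  | succ R ih =>
    show 18 * m R / 5 = 18 * Pool.Agent.R493.SI.mR R / 5
    rw [ih]

/-- All members of `V` with at most `C` exceptions are arranged in `D` disjoint circles (lists without
repetitions, read cyclically) such that any `k` successive members of a circle (all members, if there are fewer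
than `k`) form a set with the property `G`. -/
def Circles (V : Finset ℕ) (D C k : ℕ) (G : Finset ℕ → Prop) : Prop :=
  ∃ e : Fin D → List ℕ, (∀ i, (e i).Nodup) ∧ (∀ i j, i ≠ j → List.Disjoint (e i) (e j)) ∧
    (∀ i, ∀ v ∈ e i, v ∈ V) ∧ (V.filter (fun v => ∀ i, v ∉ e i)).card ≤ C ∧
    ∀ i j, e i ≠ [] → G ((((e i).rotate j).take k).toFinset)

theorem iter_eq (a d : ℤ) (t : ℕ) (n : ℤ) : ((fun x : ℤ => a + d * x)^[t]) n = d ^ t * n + itc a d t := by
  induction t with
  | zero => simp [itc_zero]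
  | succ t ih =>
    rw [Function.iterate_succ_apply', ih, itc_succ]
    ring

theorem primeAt_iff (a d : ℤ) (t n : ℕ) :
    (((d ^ t, itc a d t) : ℤ × ℤ).1 * (n : ℤ) + ((d ^ t, itc a d t) : ℤ × ℤ).2).toNat.Prime ↔ PrimeAt a d t n := by
  unfold PrimeAt
  rw [iter_eq]

theorem allPatterns_of_pats {a d : ℤ} (hd : 1 ≤ d) (hg : Int.gcd a d = 1) (ha : a ≠ 0) {J : ℕ} {V F : Finset ℕ}
    (h : PatsJ J (V.image (fun t => (d ^ t, itc a d t))) (F.image (fun t => (d ^ t, itc a d t)))) :
    AllPatterns a d J V F := by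
  classical
  set g : ℕ → ℤ × ℤ := fun t => (d ^ t, itc a d t) with hgdef
  have hinj : Function.Injective g := by
    intro s t hst
    simp only [hgdef, Prod.mk.injEq] at hst
    exact itc_inj hd ha hst.1 hst.2
  have hcop : ∀ t, IsCoprime (g t).1 (g t).2 := by
    intro t
    show IsCoprime (d ^ t) (itc a d t)
    rw [isCoprime_comm, Int.isCoprime_iff_gcd_eq_one]
    by_contra hne1
    obtain ⟨r, hr, hrd⟩ := Nat.exists_prime_and_dvd hne1
    have h1 : (r : ℤ) ∣ (Int.gcd (itc a d t) (d ^ t) : ℤ) := Int.natCast_dvd_natCast.2 hrd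
    exact itc_coprime hg hr (h1.trans (Int.gcd_dvd_right _ _)) (h1.trans (Int.gcd_dvd_left _ _))
  have hpos : ∀ t, 0 < (g t).1 := fun t => by
    show 0 < d ^ t
    positivity
  obtain ⟨T', hTV, hFT, hTJ, h⟩ := h
  refine ⟨V.filter (fun t => g t ∈ T'), filter_subset _ _, ?_, ?_, ?_⟩
  · intro t ht
    have h1 := hFT (mem_image_of_mem g ht)
    obtain ⟨s, hs, hst⟩ := mem_image.1 (hTV h1)
    rw [hinj hst] at hs
    exact mem_filter.2 ⟨hs, h1⟩
  · refine le_trans ?_ hTJ
    refine Finset.card_le_card_of_injOn g (fun t ht => ?_) hinj.injOn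
    rw [mem_coe, mem_filter] at ht
    exact ht.2
  intro U hU l
  obtain ⟨C, hC⟩ := h (U.image g) (by
    intro u hu
    obtain ⟨t, ht, rfl⟩ := mem_image.1 hu
    refine ⟨hpos t, hcop t, fun h1 => ?_⟩
    obtain ⟨s, hs, hst⟩ := mem_image.1 (hTV h1)
    rw [hinj hst] at hs
    exact disjoint_left.1 hU ht (mem_filter.2 ⟨hs, h1⟩)) l
  refine ⟨C, hC.mono fun N hN A hA => ?_⟩
  obtain ⟨D, hD1, hD2, hD3⟩ := hN (A.image g) (image_subset_image hA)
  refine ⟨D, hD1, hD2, hD3.trans ?_⟩
  rw [Nat.cast_le]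
  unfold Pool.Agent.Y827.HN.cntX progressions
  refine card_le_card ?_
  intro n hn
  obtain ⟨hn1, hn2⟩ := mem_filter.1 hn
  obtain ⟨hn3, hn4⟩ := mem_Icc.1 hn1
  refine mem_filter.2 ⟨mem_Icc.2 ⟨by omega, hn4⟩, fun j hj => ?_⟩
  obtain ⟨h1, h2⟩ := hn2 j hj
  refine ⟨fun t ht => ?_, fun t ht => ?_⟩
  · exact (primeAt_iff a d t _).1 (h1 _ (mem_image_of_mem g ht))
  · intro hp
    refine h2 (g t) ?_ ((primeAt_iff a d t _).2 hp)
    rcases mem_union.1 ht with ht | ht
    · obtain ⟨h3, h4⟩ := mem_sdiff.1 ht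
      refine mem_union_left _ (mem_sdiff.2 ⟨mem_image_of_mem g h3, fun h => ?_⟩)
      obtain ⟨s, hs, hst⟩ := mem_image.1 h
      rw [hinj hst] at hs
      exact h4 hs
    · exact mem_union_right _ (mem_image_of_mem g ht)

/-- **Circles of times.** (1) `R` affine maps. (2) Cunningham chains of both kinds: ten circles for EVERY finite set
of times. -/
theorem result (k : ℕ) (hk : 1 ≤ k) :
    (∀ R : ℕ, ∃ C B : ℕ, ∀ a d : Fin R → ℤ,
      (∀ i, a i ≠ 0 ∧ 1 ≤ d i ∧ Int.gcd (a i) (d i) = 1 ∧ 2 ∣ a i * d i) → ∀ V : Finset ℕ,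
      (∀ p : ℕ, p.Prime → 3 ≤ p → p ≤ B → (∃ i, (p : ℤ) ∣ d i - 1 ∧ ¬ (p : ℤ) ∣ a i) →
        ∃ s : ℕ, ∀ t ∈ V, ¬ t ≡ s [MOD p]) →
      Circles V (m R) C k (fun w => ∀ i, AllPatterns (a i) (d i) B V w)) ∧
    ∃ C B : ℕ, ∀ V : Finset ℕ, Circles V 10 C k (fun w => AllPatterns 1 2 B V w ∧ AllPatterns (-1) 2 B V w) := by
  classical
  have main : ∀ R : ℕ, ∃ C B : ℕ, ∀ a d : Fin R → ℤ,
      (∀ i, a i ≠ 0 ∧ 1 ≤ d i ∧ Int.gcd (a i) (d i) = 1 ∧ 2 ∣ a i * d i) → ∀ V : Finset ℕ,
      (∀ p : ℕ, p.Prime → 3 ≤ p → p ≤ B → (∃ i, (p : ℤ) ∣ d i - 1 ∧ ¬ (p : ℤ) ∣ a i) →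
        ∃ s : ℕ, ∀ t ∈ V, ¬ t ≡ s [MOD p]) →
      Circles V (m R) C k (fun w => ∀ i, AllPatterns (a i) (d i) B V w) := by
    intro R
    obtain ⟨C, B, h⟩ := pat_circles R k hk
    refine ⟨C, B, fun a d had V hloc => ?_⟩
    rw [m_eq]
    obtain ⟨e, he1, he2, he3, he4, he5⟩ := h V (fun i t => (d i ^ t, itc (a i) (d i) t))
      (fun i s _ t _ hst => by
        simp only [Prod.mk.injEq] at hst
        exact itc_inj (had i).2.1 (had i).1 hst.1 hst.2)
      (fun i t _ => ⟨by have := (had i).2.1; positivity, by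
        show IsCoprime (d i ^ t) (itc (a i) (d i) t)
        rw [isCoprime_comm, Int.isCoprime_iff_gcd_eq_one]
        by_contra hne1
        obtain ⟨r, hr, hrd⟩ := Nat.exists_prime_and_dvd hne1
        have h1 : (r : ℤ) ∣ (Int.gcd (itc (a i) (d i) t) (d i ^ t) : ℤ) := Int.natCast_dvd_natCast.2 hrd
        exact itc_coprime (had i).2.2.1 hr (h1.trans (Int.gcd_dvd_right _ _)) (h1.trans (Int.gcd_dvd_left _ _))⟩)
      (fun i p hp hpB => by
        obtain ⟨n, hn⟩ := iter_admissible (ι := V) (had i).2.2.1 (had i).2.2.2 (fun t => (t : ℕ)) hp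
          (fun hp3 hp1 hpa => by
            obtain ⟨s, hs⟩ := hloc p hp hp3 hpB ⟨i, hp1, hpa⟩
            exact iter_miss (ι := V) _ hp hp1 hpa s (fun t => hs t t.2))
        exact ⟨n, fun t ht => hn ⟨t, ht⟩⟩)
    exact ⟨e, he1, he2, he3, he4, fun j l hne i =>
      allPatterns_of_pats (had i).2.1 (had i).2.2.1 (had i).1 (he5 i j l hne)⟩
  refine ⟨main, ?_⟩
  obtain ⟨C, B, h⟩ := main 2
  refine ⟨C, B, fun V => ?_⟩
  obtain ⟨e, he1, he2, he3, he4, he5⟩ := h ![1, -1] ![2, 2] (by
    intro i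
    fin_cases i <;> simp) V (by
    rintro p hp hp3 - ⟨i, hi, -⟩
    exfalso
    have h1 : (p : ℤ) ∣ 1 := by
      fin_cases i <;> simpa using hi
    have h2 := Int.le_of_dvd one_pos h1
    omega)
  exact ⟨e, he1, he2, he3, he4, fun i j hne => ⟨he5 i j hne 0, he5 i j hne 1⟩⟩

end Pool.Agent.Results.MP_c183ae_nt.CirclesOfTimes
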