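import Mathlib
import Pool.Agent.Run7.h189.CO.TreeMain

/-!
# Complete trees of primes in the orbits of affine maps with a common multiplier

Let `x ↦ a x + b c`, `c : Fin r`, be affine maps with the same multiplier `a ≥ 2` and with `b c` coprime
to `a`, such that different words give different maps. For a word `w` (a list of letters, the head is the
letter applied last) let `Val a b w x` be the value at `x` of the composition. The words above a word `y` are
the words `u ++ y`, that is the words with suffix `y` (`y <:+ z`).

We prove: for every height `k` there is a finite set `J` of words, of bounded length, which contains a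
complete `r`-ary tree of height `k` rooted at the empty word, and for every `R` there are infinitely many
primes `p` such that, among all the compositions of at most `R` of the maps, exactly those of the words of
`J` have a prime value at `p`. For `a = 2`, `b = 1, -1` these are the trees of the numbers reached from `p`
by `x ↦ 2 x + 1` and `x ↦ 2 x - 1` (Cunningham chains of both kinds are the paths with one letter); for
`a = 10`, `b = 1, 3, 7, 9` the numbers obtained from `p` by appending decimal digits.
-/

set_option autoImplicit false

namespace Pool.Agent.Results.MP_c183ae_nt.CompleteTreesOfPrimes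

open Pool.Agent.Run7.h189.CO

/-- **Complete trees of primes.** (1) For all `r ≥ 1` and `k` there is `C` such that for every integer
`a ≥ 2` and all integers `b c`, `c : Fin r`, coprime to `a`, for which different words in the maps
`x ↦ a x + b c` give different maps, there is a finite set `J` of words of length at most `C` in which the
empty word is the root of a complete `r`-ary tree of height `k` (`Tree J k []`), and for every `R` there are
infinitely many primes `p` such that for all words `w` of length at most `R` the number `Val a b w p` is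
prime if and only if `w ∈ J`. (2) Different words give different maps if the `b c` are pairwise incongruent
modulo `a`, or if `r = 2` and `b 0 ≠ b 1`. (3) In particular (1) holds for the maps `x ↦ 2 x + 1` and
`x ↦ 2 x - 1`, and (4) for the maps `x ↦ 10 x + d`, `d = 1, 3, 7, 9`. -/
theorem result :
    (∀ r k : ℕ, 1 ≤ r → ∃ C : ℕ, ∀ (a : ℤ) (b : Fin r → ℤ), 2 ≤ a → (∀ c, IsCoprime a (b c)) →
      Function.Injective (Val a b) →
      ∃ J : Finset (List (Fin r)), (∀ w ∈ J, w.length ≤ C) ∧ Tree J k [] ∧
        ∀ R : ℕ, {p : ℕ | p.Prime ∧ ∀ w : List (Fin r), w.length ≤ R →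
          ((Val a b w p).toNat.Prime ↔ w ∈ J)}.Infinite) ∧
    (∀ (r : ℕ) (a : ℤ) (b : Fin r → ℤ), 2 ≤ a → (∀ c c', a ∣ b c - b c' → c = c') →
      Function.Injective (Val a b)) ∧
    (∀ (a : ℤ) (b : Fin 2 → ℤ), 2 ≤ a → b 0 ≠ b 1 → Function.Injective (Val a b)) ∧
    (∀ k : ℕ, ∃ J : Finset (List (Fin 2)), Tree J k [] ∧
      ∀ R : ℕ, {p : ℕ | p.Prime ∧ ∀ w : List (Fin 2), w.length ≤ R →
        ((Val 2 ![1, -1] w p).toNat.Prime ↔ w ∈ J)}.Infinite) ∧
    (∀ k : ℕ, ∃ J : Finset (List (Fin 4)), Tree J k [] ∧
      ∀ R : ℕ, {p : ℕ | p.Prime ∧ ∀ w : List (Fin 4), w.length ≤ R →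
        ((Val 10 ![1, 3, 7, 9] w p).toNat.Prime ↔ w ∈ J)}.Infinite) := by
  refine ⟨fun r k hr => trees r k hr, fun r a b ha h => free_of_incong ha h,
    fun a b ha h => free_of_two ha h, fun k => ?_, fun k => ?_⟩
  · obtain ⟨C, hC⟩ := trees 2 k (by norm_num)
    obtain ⟨J, -, h1, h2⟩ := hC 2 ![1, -1] le_rfl (by
      intro c
      fin_cases c
      · exact ⟨0, 1, by simp⟩
      · exact ⟨0, -1, by simp⟩) (free_of_two le_rfl (by simp))
    exact ⟨J, h1, h2⟩
  · obtain ⟨C, hC⟩ := trees 4 k (by norm_num)
    obtain ⟨J, -, h1, h2⟩ := hC 10 ![1, 3, 7, 9] (by norm_num) (by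
      intro c
      fin_cases c
      · exact ⟨0, 1, by simp⟩
      · exact ⟨1, -3, by simp⟩
      · exact ⟨-2, 3, by simp⟩
      · exact ⟨1, -1, by simp⟩) (free_of_incong (by norm_num) (by
      intro c c' h
      fin_cases c <;> fin_cases c' <;> simp at h ⊢ <;> omega))
    exact ⟨J, h1, h2⟩

end Pool.Agent.Results.MP_c183ae_nt.CompleteTreesOfPrimes
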