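import Pool.Agent.Run7.h962.AP.A8

/-!
# Primes in the orbits of affine maps: the sharp limit of all nonnegative sieve weights

Cunningham chains are sequences of primes in the orbits of the maps `x ↦ 2 x + 1` and `x ↦ 2 x - 1`.  Let more generally
`S(x) = a x + b` with integers `|a| ≥ 2` and `b ≠ 0`.  The method of Goldston, Pintz and Yıldırım in the form of Maynard
and Tao gives many primes among the first `k` terms `S^t(n)` of the orbit of suitable `n`: one takes a nonnegative weight
`w(n)` of level `Q` (a square of a divisor sum) for which the expected number of primes among the values, with respect to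
`w`, is large.  If the primes have the level of distribution `θ`, the weights of Maynard and Tao give `(θ/2 + o(1)) log k`
primes.  A chain of length `k` needs `k` primes.  Could other nonnegative weights (not squares, with an arbitrary dependence
on the residue classes, adapted to the map) give more?  We prove that they cannot, and that the number of the terms without
small prime factors has a Poisson tail with respect to every such weight.  For ANY weight `w ≥ 0` of level `Q`, that
is, a sum of arbitrary functions with periods `d ≤ Q`, ANY such map with `|b| ≤ Q^B` and ANY `k` times `t ∈ T`,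
`|a|^t ≤ Q^B` (so that the times may lie in an interval of length `B log Q / log |a|`), let `X(n)` be the number of the
`S^t(n)`, `t ∈ T`, without prime factors `≤ Q`, `M` the mean over the period `Q!` and `L = (e^(-γ)/2 + ε) log k + C(ε)`.

(1) `M(w binom(X, r)) ≤ L^r / r! · M(w)` for all `r`.

(2) `∏_{p ≤ Q} (1 - 1/p)^(-r) M(w binom(X, r)) ≤ (((1/2 + ε) log k + C) log Q)^r / r! · M(w)` for all `r`; the left side is
the sum over the `R ⊆ T` with `r` elements of the expected main terms (Hardy and Littlewood, primes `≤ Q`) of the mean values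
of `w(n) ∏_{t ∈ R} Λ(|S^t(n)|)`.

(3) `M(w 1[X ≥ m]) ≤ e^(m - L) (L/m)^m M(w)` for all integers `m ≥ L`; for `m = k`, the case of the complete chains, the
factor is at most `(O_ε(log k) / k)^k`.

(4) for the primes themselves, unconditionally: for `0 < δ < 1/2`, `a ≥ 2`, `b ≥ 0` and `b, a^t ≤ (log N)^B`, every weight `w ≥ 0`
of level `N^δ` for which `∑_d (∑_r |c_d(r)|)^2 / φ(d)` is at most a fixed power of `log N` times the square of the mean of `w`
(as for the weights of Maynard and Tao) satisfies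
`∑_{n < N} w(n) #{t ∈ T : S^t(n) prime} ≤ ((δ/2 + ε) log k + C(ε)) ∑_{n < N} w(n)` (theorem of Bombieri and Vinogradov,
`Pool/Agent/Run7/h962/AP`).

The constant `C(ε)` is independent of the map, of the times, of `k` and of `B`.  In particular no nonnegative weight of level
`Q ≤ N`, with starting points `n ≤ N`, detects a Cunningham chain of length `k` of the first or of the second kind, for large
`k`, even if the primes have the level of distribution `1`.

The proof: a prime which divides neither `a` nor a determinant `b_s a^t - b_t a^s` (`S^t(x) = a^t x + b_t`) divides at most one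
of the values; all but few of the primes `≤ Q` are of this kind, and the forms are reduced to the model of the proof for
shifts (MP_8923e7_nt, `SharpLimitOfNonnegativeWeights`: inequality `PSs`, by helpers 962, 816, 249, 420, 571, 956, 697, 743,
97, 245, 372 and 91, with starting files of helper422).
-/

set_option autoImplicit false

open Finset

namespace Pool.Agent.Results.MP_c183ae_nt.SharpLimitForAffineOrbits

/-- the weight `w(n) = ∑_{d ≤ Q} c_d(n mod d)`, an arbitrary real weight of level `Q` -/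
noncomputable def weight (Q : ℕ) (c : ℕ → ℕ → ℝ) (n : ℕ) : ℝ := ∑ d ∈ Icc 1 Q, c d (n % d)

/-- the mean value of `F` over the period `Q!` -/
noncomputable def mean (Q : ℕ) (F : ℕ → ℝ) : ℝ := (∑ n ∈ range Q.factorial, F n) / (Q.factorial : ℝ)

/-- the term `S^t(n)` of the orbit of `n` under `S(x) = a x + b` -/
def orb (a b : ℤ) (t : ℕ) (n : ℕ) : ℤ := (fun x => a * x + b)^[t] (n : ℤ)

/-- the number of the `t ∈ T` for which `S^t(n)` has no prime factor `p ≤ Q` -/
def free (Q : ℕ) (a b : ℤ) (T : Finset ℕ) (n : ℕ) : ℕ :=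
  (T.filter (fun t : ℕ => ∀ p ∈ Icc (1 : ℕ) Q, Nat.Prime p → ¬ (p : ℤ) ∣ orb a b t n)).card

/-- the product `∏_{p ≤ Q} (1 - 1/p)^(-1)`, asymptotically equal to `e^γ log Q` -/
noncomputable def euler (Q : ℕ) : ℝ := (∏ p ∈ (Icc 1 Q).filter Nat.Prime, (1 - 1 / (p : ℝ)))⁻¹

/-- the constant term of the iterates -/
def cst (a : ℤ) : ℕ → ℤ
  | 0 => 0
  | t + 1 => a * cst a t + 1

theorem orb_eq (a b : ℤ) (t n : ℕ) : orb a b t n = a ^ t * n + b * cst a t := by
  unfold orb
  induction t with
  | zero => simp [cst]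
  | succ t ih =>
    rw [Function.iterate_succ_apply', ih]
    simp only [cst]
    ring

theorem cst_eq (a : ℤ) (t : ℕ) : (a - 1) * cst a t = a ^ t - 1 := by
  induction t with
  | zero => simp [cst]
  | succ t ih =>
    simp only [cst]
    linear_combination a * ih

/-- the constant term of the iterates, for natural numbers -/
def cstN (a : ℕ) : ℕ → ℕ
  | 0 => 0
  | t + 1 => a * cstN a t + 1

theorem iter_eq (a b t n : ℕ) : (fun x => a * x + b)^[t] n = a ^ t * n + b * cstN a t := by
  induction t with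
  | zero => simp [cstN]
  | succ t ih =>
    rw [Function.iterate_succ_apply', ih]
    simp only [cstN]
    ring

theorem cstN_eq (a t : ℕ) : (a : ℤ) * cstN a t + 1 = (a : ℤ) ^ t + cstN a t := by
  induction t with
  | zero => simp [cstN]
  | succ t ih =>
    simp only [cstN]
    push_cast
    linear_combination (a : ℤ) * ih

theorem cstN_lt (a t : ℕ) (ha : 2 ≤ a) : cstN a t < a ^ t := by
  induction t with
  | zero => simp [cstN]
  | succ t ih =>
    simp only [cstN]
    rw [pow_succ]
    nlinarith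

/-- For every `ε > 0` there is `C > 0` such that the following holds for all `k ≥ 1`, all real `B` and all `Q ≥ Q₀(ε, k, B)`.
Let `S(x) = a x + b` with integers `|a| ≥ 2`, `b ≠ 0`, `|b| ≤ Q^B`, let `T` be a set of `k` natural numbers with
`|a|^t ≤ Q^B` for `t ∈ T`, let `w ≥ 0` be a weight of level `Q`, let `X(n)` be the number of the `S^t(n)`, `t ∈ T`, without
prime factors `≤ Q`, let `M` be the mean over the period `Q!` and `L = (e^(-γ)/2 + ε) log k + C`.

(1) For all `r`, `M(w binom(X, r)) ≤ L^r / r! · M(w)`.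

(2) For all `r`, `∏_{p ≤ Q} (1 - 1/p)^(-r) M(w binom(X, r)) ≤ (((1/2 + ε) log k + C) log Q)^r / r! · M(w)`.

(3) For all integers `m ≥ L`, `M(w 1[X ≥ m]) ≤ e^(m - L) (L/m)^m M(w)`.

(4) Let `0 < δ < 1/2`, `A, B ≥ 0` and `N ≥ N₀(ε, k, δ, A, B)`, let `a ≥ 2` and `b ≥ 0` be integers, `(a, b) = 1`,
`b ≤ (log N)^B`, `T` a set of `k` natural numbers `t` with `a^t ≤ (log N)^B`, `S(x) = a x + b`, and let `w ≥ 0` be a weight of
level `⌊N^δ⌋` with `∑_d (∑_r |c_d(r)|)^2 / φ(d) ≤ (log N)^A ((1/N) ∑_{n < N} w(n))^2`.  Then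
`∑_{n < N} w(n) #{t ∈ T : S^t(n) prime} ≤ ((δ/2 + ε) log k + C) ∑_{n < N} w(n)`. -/
theorem result : ∀ ε : ℝ, 0 < ε → ∃ C : ℝ, 0 < C ∧
    (∀ (k : ℕ) (B : ℝ), 1 ≤ k → ∃ Q₀ : ℕ, ∀ Q : ℕ, Q₀ ≤ Q →
    ∀ a b : ℤ, 2 ≤ |a| → b ≠ 0 → |(b : ℝ)| ≤ (Q : ℝ) ^ B →
    ∀ T : Finset ℕ, T.card = k → (∀ t ∈ T, |(a : ℝ)| ^ t ≤ (Q : ℝ) ^ B) → ∀ c : ℕ → ℕ → ℝ, (∀ n, 0 ≤ weight Q c n) →
    ∀ L : ℝ, L = (Real.exp (-Real.eulerMascheroniConstant) / 2 + ε) * Real.log k + C →
      (∀ r : ℕ, mean Q (fun n => weight Q c n * ((free Q a b T n).choose r : ℝ)) ≤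
        L ^ r / (r.factorial : ℝ) * mean Q (weight Q c)) ∧
      (∀ r : ℕ, euler Q ^ r * mean Q (fun n => weight Q c n * ((free Q a b T n).choose r : ℝ)) ≤
        (((1 / 2 + ε) * Real.log k + C) * Real.log Q) ^ r / (r.factorial : ℝ) * mean Q (weight Q c)) ∧
      (∀ m : ℕ, L ≤ m → mean Q (fun n => if m ≤ free Q a b T n then weight Q c n else 0) ≤
        Real.exp (m - L) * (L / m) ^ m * mean Q (weight Q c))) ∧
    (∀ (k : ℕ) (δ : ℝ) (A B : ℕ), 1 ≤ k → 0 < δ → δ < 1 / 2 → ∃ N₀ : ℕ, ∀ N : ℕ, N₀ ≤ N →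
      ∀ a b : ℕ, 2 ≤ a → Nat.Coprime a b → (b : ℝ) ≤ Real.log N ^ B →
      ∀ T : Finset ℕ, T.card = k → (∀ t ∈ T, (a : ℝ) ^ t ≤ Real.log N ^ B) →
      ∀ c : ℕ → ℕ → ℝ, (∀ n, 0 ≤ weight ⌊(N : ℝ) ^ δ⌋₊ c n) →
        ∑ d ∈ Icc 1 ⌊(N : ℝ) ^ δ⌋₊, (∑ r ∈ range d, |c d r|) ^ 2 / (Nat.totient d : ℝ) ≤
          Real.log N ^ A * ((∑ n ∈ range N, weight ⌊(N : ℝ) ^ δ⌋₊ c n) / N) ^ 2 →
        ∑ n ∈ range N, weight ⌊(N : ℝ) ^ δ⌋₊ c n *
            ((T.filter (fun t => ((fun x => a * x + b)^[t] n).Prime)).card : ℝ) ≤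
          ((δ / 2 + ε) * Real.log k + C) * ∑ n ∈ range N, weight ⌊(N : ℝ) ^ δ⌋₊ c n) := by
  intro ε hε
  obtain ⟨C, hC, h1, hP⟩ := Pool.Agent.Run7.h962.AP.poi_both ε hε
  refine ⟨C, hC, fun k B hk => ?_, fun k δ A B hk hδ0 hδ => ?_⟩
  swap
  · obtain ⟨N₀, hs, hP⟩ := hP k δ A (B + B) hk hδ0 hδ
    refine ⟨max N₀ 3, fun N hN a b ha hab hbB T hT hTB c hc hcn => ?_⟩
    have hN0 : N₀ ≤ N := (le_max_left _ _).trans hN
    have hN3 : 3 ≤ N := (le_max_right _ _).trans hN
    have hL1 : 1 ≤ Real.log N := Pool.Agent.H442R2.KF.TaskBV.log_ge_one hN3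
    have hLB : 1 ≤ Real.log N ^ B := one_le_pow₀ hL1
    have hb0 : b ≠ 0 := by
      rintro rfl
      rw [Nat.coprime_zero_right] at hab
      omega
    have hcop : ∀ t, Nat.Coprime (a ^ t) (b * cstN a t) := by
      intro t
      cases t with
      | zero => simp
      | succ t =>
        apply Nat.Coprime.pow_left
        apply Nat.Coprime.mul_right hab
        simp only [cstN]
        rw [Nat.coprime_mul_left_add_right]
        exact Nat.coprime_one_right _
    have h2 := hP N hN0 T (fun t => a ^ t) (fun t => b * cstN a t) hT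
      (fun t _ => Nat.one_le_pow _ _ (by omega))
      (fun t ht => by
        push_cast
        refine (hTB t ht).trans ?_
        rw [pow_add]
        nlinarith)
      (fun t ht => by
        refine le_trans ?_ (hs N hN0).1
        have h3 : ((cstN a t : ℕ) : ℝ) ≤ Real.log N ^ B := by
          refine le_trans ?_ (hTB t ht)
          exact_mod_cast (cstN_lt a t ha).le
        push_cast
        rw [pow_add]
        exact mul_le_mul hbB h3 (Nat.cast_nonneg _) (by linarith))
      (fun t _ => hcop t)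
      (fun s _ t _ hst h => by
        apply hst
        have h3 : (a : ℤ) ^ s * (b * cstN a t) = (a : ℤ) ^ t * (b * cstN a s) := by exact_mod_cast h
        have hb0' : (b : ℤ) ≠ 0 := by exact_mod_cast hb0
        have h4 : (a : ℤ) ^ s * cstN a t = (a : ℤ) ^ t * cstN a s := by
          have h5 : (b : ℤ) * ((a : ℤ) ^ s * cstN a t - (a : ℤ) ^ t * cstN a s) = 0 := by linear_combination h3
          rcases mul_eq_zero.1 h5 with h6 | h6
          · exact absurd h6 hb0'
          · linarith
        have e1 := cstN_eq a t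
        have e2 := cstN_eq a s
        have h5 : (a : ℤ) ^ s = (a : ℤ) ^ t := by
          linear_combination (-((a : ℤ) - 1)) * h4 + (a : ℤ) ^ s * e1 - (a : ℤ) ^ t * e2
        have h6 : a ^ s = a ^ t := by exact_mod_cast h5
        exact Nat.pow_right_injective ha h6) c hc hcn
    have e : ∀ n, T.filter (fun t => ((fun x => a * x + b)^[t] n).Prime) =
        T.filter (fun t => (a ^ t * n + b * cstN a t).Prime) := by
      intro n
      apply Finset.filter_congr
      intro t _
      rw [iter_eq]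
    simp only [e]
    exact h2
  obtain ⟨Q₀, h1⟩ := h1 k (2 * max B 0) hk
  refine ⟨max Q₀ 1, fun Q hQ a b ha hb0 hbB T hT hTB c hc L hL => ?_⟩
  have hQ0 : Q₀ ≤ Q := (le_max_left _ _).trans hQ
  have hQ1 : (1 : ℝ) ≤ Q := by exact_mod_cast (le_max_right _ _).trans hQ
  have hQr : (0 : ℝ) < Q := by linarith
  have ha0 : a ≠ 0 := by
    rintro rfl
    norm_num at ha
  have ha1 : a ≠ 1 := by
    rintro rfl
    norm_num at ha
  -- bounds
  have hpB : (Q : ℝ) ^ B ≤ (Q : ℝ) ^ (max B 0) := Real.rpow_le_rpow_of_exponent_le hQ1 (le_max_left _ _)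
  have hp1 : 1 ≤ (Q : ℝ) ^ (max B 0) := Real.one_le_rpow hQ1 (le_max_right _ _)
  have hp2 : (Q : ℝ) ^ (2 * max B 0) = (Q : ℝ) ^ (max B 0) * (Q : ℝ) ^ (max B 0) := by
    rw [two_mul, Real.rpow_add hQr]
  have hcst : ∀ t, |(cst a t : ℝ)| ≤ |(a : ℝ)| ^ t := by
    have haR : (2 : ℝ) ≤ |(a : ℝ)| := by exact_mod_cast ha
    have h5 : ∀ t, |(cst a t : ℝ)| + 1 ≤ |(a : ℝ)| ^ t := by
      intro t
      induction t with
      | zero => simp [cst]
      | succ t ih =>
        simp only [cst]
        push_cast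
        have h6 : |(a : ℝ) * cst a t + 1| ≤ |(a : ℝ)| * |(cst a t : ℝ)| + 1 := by
          refine (abs_add_le _ _).trans ?_
          rw [abs_mul, abs_one]
        rw [pow_succ]
        nlinarith [abs_nonneg (cst a t : ℝ)]
    intro t
    linarith [h5 t]
  have h2 := h1 Q hQ0 T (fun t => a ^ t) (fun t => b * cst a t) hT (fun t _ => pow_ne_zero _ ha0)
    (fun s _ t _ hst h => by
      apply hst
      have h3 : (a : ℤ) ^ s * ((a - 1) * cst a t) = a ^ t * ((a - 1) * cst a s) := by
        have h4 : b * (a ^ s * ((a - 1) * cst a t) - a ^ t * ((a - 1) * cst a s)) = 0 := by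
          have h5 : a ^ s * (b * cst a t) = a ^ t * (b * cst a s) := h
          linear_combination (a - 1) * h5
        rcases mul_eq_zero.1 h4 with h5 | h5
        · exact absurd h5 hb0
        · linarith
      rw [cst_eq, cst_eq] at h3
      have h4 : a ^ s = a ^ t := by linear_combination -h3
      have h5 : a.natAbs ^ s = a.natAbs ^ t := by
        rw [← Int.natAbs_pow, ← Int.natAbs_pow, h4]
      have h6 : 2 ≤ a.natAbs := by
        have : (2 : ℤ) ≤ (a.natAbs : ℤ) := by rw [Int.natCast_natAbs]; exact ha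
        exact_mod_cast this
      exact Nat.pow_right_injective h6 h5)
    (fun t ht => by
      push_cast
      rw [abs_pow, hp2]
      have := hTB t ht
      nlinarith)
    (fun t ht => by
      push_cast
      rw [abs_mul, hp2]
      have h5 : |(cst a t : ℝ)| ≤ (Q : ℝ) ^ (max B 0) := ((hcst t).trans (hTB t ht)).trans hpB
      exact mul_le_mul (hbB.trans hpB) h5 (abs_nonneg _) (by linarith)) c hc L hL
  have e1 : ∀ n, free Q a b T n = Pool.Agent.Run7.h962.AP.frF Q T (fun t => a ^ t) (fun t => b * cst a t) n := by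
    intro n
    unfold free Pool.Agent.Run7.h962.AP.frF
    congr 1
    apply Finset.filter_congr
    intro t _
    rw [orb_eq]
  simp only [e1]
  exact h2

end Pool.Agent.Results.MP_c183ae_nt.SharpLimitForAffineOrbits
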